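import Pool.Agent.Helper35.PQF.St

/-!
Module RA4 of project PM (MP_d112a4_gt): the weighted second difference integral.
-/

open Filter Topology Matrix Set MeasureTheory
open Pool.Agent.Helper35.PM

namespace Pool.Agent.Helper52.PM

/-- The elementary bound, for a continuous function on the line. -/
theorem ra4_key (N : ℝ → ℝ) (α β δ : ℝ) (hαβ : α < β)
    (hδ : 0 < δ) (hδβ : δ < -β / 2) (hc : Continuous N) (h0 : ∀ x ≤ β / 2, 0 ≤ N x)
    (ha : ∀ x y : ℝ, x ≤ y → y ≤ β / 2 → N y ≤ N x)
    (hh : ∀ t : ℝ, 0 ≤ t → t ≤ δ → N (β - t) ≤ (-β + t) / (-β - t) * N (β + t)) :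
    (∫ x in α..β, ((-x) * (2 * N x - N (x + δ) - N (x - δ)))) ≤
      δ ^ 2 * (2 * N (α - δ) - N α + (2 * N β * (-β) / (-β - δ) - 2 * N (β + δ))) := by
  have hW : Continuous (fun x : ℝ => (-x) * N x) := continuous_neg.mul hc
  have hsub : ∀ (f : ℝ → ℝ), Continuous f → ∀ a b : ℝ,
      ∫ x in a..b, f x = (∫ x in (0 : ℝ)..b, f x) - ∫ x in (0 : ℝ)..a, f x := by
    intro f hf a b
    rw [intervalIntegral.integral_interval_sub_left (hf.intervalIntegrable _ _)
      (hf.intervalIntegrable _ _)]
  have e1 : (∫ x in α..β, ((-x) * (2 * N x - N (x + δ) - N (x - δ)))) =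
      2 * (∫ x in α..β, (-x) * N x) -
        ((∫ x in (α + δ)..(β + δ), (-x) * N x) + δ * ∫ x in (α + δ)..(β + δ), N x) -
        ((∫ x in (α - δ)..(β - δ), (-x) * N x) - δ * ∫ x in (α - δ)..(β - δ), N x) := by
    rw [← intervalIntegral.integral_comp_add_right (fun x => (-x) * N x) δ,
      ← intervalIntegral.integral_comp_add_right (fun x => N x) δ,
      ← intervalIntegral.integral_comp_sub_right (fun x => (-x) * N x) δ,
      ← intervalIntegral.integral_comp_sub_right (fun x => N x) δ,
      ← intervalIntegral.integral_const_mul, ← intervalIntegral.integral_const_mul,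
      ← intervalIntegral.integral_const_mul, ← intervalIntegral.integral_add,
      ← intervalIntegral.integral_sub, ← intervalIntegral.integral_sub,
      ← intervalIntegral.integral_sub]
    · apply intervalIntegral.integral_congr
      intro x _
      simp only
      ring
    all_goals
      apply Continuous.intervalIntegrable
      fun_prop
  -- the part at `α`
  have e2 : (∫ t in (0 : ℝ)..δ, ((-(α + t)) * N (α + t) - (-(α - t)) * N (α - t))) =
      (∫ x in α..(α + δ), (-x) * N x) - ∫ x in (α - δ)..α, (-x) * N x := by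
    rw [intervalIntegral.integral_sub]
    · rw [intervalIntegral.integral_comp_add_left (fun x => (-x) * N x) α,
        intervalIntegral.integral_comp_sub_left (fun x => (-x) * N x) α]
      simp
    all_goals
      apply Continuous.intervalIntegrable
      fun_prop
  have e3 : (∫ t in (0 : ℝ)..δ, ((-(α + t)) * N (α + t) - (-(α - t)) * N (α - t))) ≤
      ∫ t in (0 : ℝ)..δ, (-2 * N α) * t := by
    apply intervalIntegral.integral_mono_on hδ.le
    · apply Continuous.intervalIntegrable
      fun_prop
    · apply Continuous.intervalIntegrable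
      fun_prop
    · intro t ht
      obtain ⟨ht0, ht1⟩ := ht
      have h1 : N (α + t) ≤ N α := ha _ _ (by linarith) (by linarith)
      have h2 : N α ≤ N (α - t) := ha _ _ (by linarith) (by linarith)
      have h3 : 0 ≤ -(α + t) := by linarith
      have h4 : 0 ≤ -(α - t) := by linarith
      nlinarith [mul_le_mul_of_nonneg_left h1 h3, mul_le_mul_of_nonneg_left h2 h4]
  have e4 : (∫ t in (0 : ℝ)..δ, (-2 * N α) * t) = -(δ ^ 2 * N α) := by
    rw [intervalIntegral.integral_const_mul, integral_id]
    ring
  have e5 : (∫ x in (α - δ)..(α + δ), N x) ≤ 2 * δ * N (α - δ) := by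
    have : (∫ x in (α - δ)..(α + δ), N x) ≤ ∫ x in (α - δ)..(α + δ), N (α - δ) := by
      apply intervalIntegral.integral_mono_on (by linarith) (hc.intervalIntegrable _ _)
        (continuous_const.intervalIntegrable _ _)
      intro x hx
      exact ha _ _ hx.1 (by linarith [hx.2])
    refine this.trans (le_of_eq ?_)
    rw [intervalIntegral.integral_const]
    simp only [smul_eq_mul]
    ring
  -- the part at `β`
  have e6 : (∫ t in (0 : ℝ)..δ, ((-(β - t)) * N (β - t) - (-(β + t)) * N (β + t))) =
      (∫ x in (β - δ)..β, (-x) * N x) - ∫ x in β..(β + δ), (-x) * N x := by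
    rw [intervalIntegral.integral_sub]
    · rw [intervalIntegral.integral_comp_add_left (fun x => (-x) * N x) β,
        intervalIntegral.integral_comp_sub_left (fun x => (-x) * N x) β]
      simp
    all_goals
      apply Continuous.intervalIntegrable
      fun_prop
  have hpos : 0 < -β - δ := by linarith
  have e7 : (∫ t in (0 : ℝ)..δ, ((-(β - t)) * N (β - t) - (-(β + t)) * N (β + t))) ≤
      ∫ t in (0 : ℝ)..δ, (4 * N β * (-β) / (-β - δ)) * t := by
    apply intervalIntegral.integral_mono_on hδ.le
    · apply Continuous.intervalIntegrable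
      fun_prop
    · apply Continuous.intervalIntegrable
      fun_prop
    · intro t ht
      obtain ⟨ht0, ht1⟩ := ht
      have h1 : N (β + t) ≤ N β := ha _ _ (by linarith) (by linarith)
      have h2 := hh t ht0 ht1
      have h3 : 0 < -β - t := by linarith
      have h4 : 0 ≤ -(β - t) := by linarith
      have h5 : 0 ≤ N β := h0 _ (by linarith)
      have h6 : (-(β - t)) * N (β - t) ≤ (-(β - t)) * ((-β + t) / (-β - t) * N (β + t)) :=
        mul_le_mul_of_nonneg_left h2 h4
      have h7 : (-(β - t)) * ((-β + t) / (-β - t) * N (β + t)) - (-(β + t)) * N (β + t) =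
          (4 * (-β) * t / (-β - t)) * N (β + t) := by
        field_simp
        ring
      have h8 : (4 * (-β) * t / (-β - t)) * N (β + t) ≤ (4 * (-β) * t / (-β - t)) * N β := by
        apply mul_le_mul_of_nonneg_left h1
        apply div_nonneg _ h3.le
        have : 0 ≤ -β := by linarith
        positivity
      have h9 : (4 * (-β) * t / (-β - t)) * N β ≤ (4 * (-β) * t / (-β - δ)) * N β := by
        apply mul_le_mul_of_nonneg_right _ h5
        apply div_le_div_of_nonneg_left _ hpos (by linarith)
        have : 0 ≤ -β := by linarith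
        positivity
      calc (-(β - t)) * N (β - t) - (-(β + t)) * N (β + t)
          ≤ (-(β - t)) * ((-β + t) / (-β - t) * N (β + t)) - (-(β + t)) * N (β + t) := by
            linarith
        _ = (4 * (-β) * t / (-β - t)) * N (β + t) := h7
        _ ≤ (4 * (-β) * t / (-β - δ)) * N β := h8.trans h9
        _ = (4 * N β * (-β) / (-β - δ)) * t := by ring
  have e8 : (∫ t in (0 : ℝ)..δ, (4 * N β * (-β) / (-β - δ)) * t) =
      δ ^ 2 * (2 * N β * (-β) / (-β - δ)) := by
    rw [intervalIntegral.integral_const_mul, integral_id]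
    ring
  have e9 : 2 * δ * N (β + δ) ≤ ∫ x in (β - δ)..(β + δ), N x := by
    have : (∫ x in (β - δ)..(β + δ), N (β + δ)) ≤ ∫ x in (β - δ)..(β + δ), N x := by
      apply intervalIntegral.integral_mono_on (by linarith)
        (continuous_const.intervalIntegrable _ _) (hc.intervalIntegrable _ _)
      intro x hx
      exact ha _ _ hx.2 (by linarith)
    refine le_trans (le_of_eq ?_) this
    rw [intervalIntegral.integral_const]
    simp only [smul_eq_mul]
    ring
  rw [e1]
  rw [hsub _ hW α β, hsub _ hW (α + δ) (β + δ), hsub _ hc (α + δ) (β + δ),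
    hsub _ hW (α - δ) (β - δ), hsub _ hc (α - δ) (β - δ)]
  rw [e2, e4, hsub _ hW α (α + δ), hsub _ hW (α - δ) α] at e3
  rw [e6, e8, hsub _ hW (β - δ) β, hsub _ hW β (β + δ)] at e7
  rw [hsub _ hc (α - δ) (α + δ)] at e5
  rw [hsub _ hc (β - δ) (β + δ)] at e9
  have f5 := mul_le_mul_of_nonneg_left e5 hδ.le
  have f9 := mul_le_mul_of_nonneg_left e9 hδ.le
  linarith

theorem ra4 : St_RA4 := by
  intro M α β hαβ hβ hM0 hMc hMa hMh ε hε
  have hmin : ∀ x : ℝ, min x (β / 2) < 0 := fun x => lt_of_le_of_lt (min_le_right _ _) (by linarith)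
  have hNc : Continuous (fun x : ℝ => M (min x (β / 2))) :=
    hMc.comp_continuous (continuous_id.min continuous_const) (fun x => hmin x)
  -- the limit of the bound
  have hlim : Tendsto (fun δ : ℝ => 2 * M (α - δ) - M α +
      (2 * M β * (-β) / (-β - δ) - 2 * M (β + δ))) (𝓝[>] 0) (𝓝 (M α)) := by
    have hα : α < 0 := hαβ.trans hβ
    have c1 : ContinuousAt M α := hMc.continuousAt (Iio_mem_nhds hα)
    have c2 : ContinuousAt M β := hMc.continuousAt (Iio_mem_nhds hβ)
    have t1 : Tendsto (fun δ : ℝ => M (α - δ)) (𝓝[>] 0) (𝓝 (M α)) := by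
      have : Tendsto (fun δ : ℝ => α - δ) (𝓝[>] 0) (𝓝 α) := by
        have h : Tendsto (fun δ : ℝ => α - δ) (𝓝 0) (𝓝 (α - 0)) :=
          (by fun_prop : Continuous (fun δ : ℝ => α - δ)).tendsto 0
        rw [sub_zero] at h
        exact h.mono_left nhdsWithin_le_nhds
      exact c1.tendsto.comp this
    have t2 : Tendsto (fun δ : ℝ => M (β + δ)) (𝓝[>] 0) (𝓝 (M β)) := by
      have : Tendsto (fun δ : ℝ => β + δ) (𝓝[>] 0) (𝓝 β) := by
        have h : Tendsto (fun δ : ℝ => β + δ) (𝓝 0) (𝓝 (β + 0)) :=
          (by fun_prop : Continuous (fun δ : ℝ => β + δ)).tendsto 0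
        rw [add_zero] at h
        exact h.mono_left nhdsWithin_le_nhds
      exact c2.tendsto.comp this
    have t3 : Tendsto (fun δ : ℝ => 2 * M β * (-β) / (-β - δ)) (𝓝[>] 0) (𝓝 (2 * M β)) := by
      have h : ContinuousAt (fun δ : ℝ => 2 * M β * (-β) / (-β - δ)) 0 := by
        apply ContinuousAt.div continuousAt_const
        · fun_prop
        · have : -β ≠ 0 := by linarith
          simpa using this
      have h2 := h.tendsto
      have h3 : 2 * M β * (-β) / (-β - 0) = 2 * M β := by
        have : -β ≠ 0 := by linarith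
        rw [sub_zero, mul_div_assoc, div_self this, mul_one]
      rw [h3] at h2
      exact h2.mono_left nhdsWithin_le_nhds
    have := ((t1.const_mul 2).sub_const (M α)).add (t3.sub (t2.const_mul 2))
    have e : 2 * M α - M α + (2 * M β - 2 * M β) = M α := by ring
    rw [e] at this
    exact this
  have ev1 : ∀ᶠ δ : ℝ in 𝓝[>] 0, 2 * M (α - δ) - M α +
      (2 * M β * (-β) / (-β - δ) - 2 * M (β + δ)) < M α + ε :=
    hlim.eventually (Iio_mem_nhds (by linarith))
  have ev2 : ∀ᶠ δ : ℝ in 𝓝[>] 0, δ < -β / 2 :=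
    (nhdsWithin_le_nhds : 𝓝[>] (0 : ℝ) ≤ 𝓝 0) (Iio_mem_nhds (by linarith))
  filter_upwards [ev1, ev2, self_mem_nhdsWithin] with δ h1 h2 h3
  have h3 : 0 < δ := h3
  have hN : ∀ x ≤ β / 2, M (min x (β / 2)) = M x := by
    intro x hx
    rw [min_eq_left hx]
  have key := ra4_key (fun x => M (min x (β / 2))) α β δ hαβ h3 h2 hNc
    (fun x _ => hM0 _ (hmin x))
    (by
      intro x y hxy _
      exact hMa (hmin x) (hmin y) (min_le_min_right _ hxy))
    (by
      intro t ht0 ht1
      rw [hN (β - t) (by linarith), hN (β + t) (by linarith)]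
      have := hMh (β + t) (β - t) (by linarith) (by linarith)
      refine this.trans (le_of_eq ?_)
      congr 1
      have p1 : 0 < -β - t := by linarith
      have p2 : 0 < -β + t := by linarith
      rw [max_eq_right]
      · rw [← neg_div_neg_eq]
        congr 1 <;> ring
      · rw [← neg_div_neg_eq (β + t), ← neg_div_neg_eq (β - t)]
        rw [div_le_div_iff₀ (by linarith) (by linarith)]
        nlinarith)
  rw [hN (α - δ) (by linarith), hN α (by linarith), hN β (by linarith), hN (β + δ) (by linarith)]
    at key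
  have e : (∫ x in α..β, ((-x) * (2 * M x - M (x + δ) - M (x - δ)) / δ ^ 2)) =
      (∫ x in α..β, ((-x) * (2 * M (min x (β / 2)) - M (min (x + δ) (β / 2)) -
        M (min (x - δ) (β / 2))))) / δ ^ 2 := by
    rw [← intervalIntegral.integral_div]
    apply intervalIntegral.integral_congr
    intro x hx
    rw [uIcc_of_le hαβ.le] at hx
    simp only
    rw [hN x (by linarith [hx.2]), hN (x + δ) (by linarith [hx.2]),
      hN (x - δ) (by linarith [hx.2])]
  rw [e]
  have hδ2 : 0 < δ ^ 2 := by positivity
  rw [div_le_iff₀ hδ2]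
  nlinarith [key, h1]

end Pool.Agent.Helper52.PM
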