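import Pool.Agent.Helper35.PQF.St

/-!
Module RA5 of project PM (MP_d112a4_gt): circle means.
-/

open Filter Topology Matrix Set MeasureTheory
open Pool.Agent.Helper35.PM

namespace Pool.Agent.Helper52.PM

theorem norm_pt (x θ : ℝ) : ‖pt x θ‖ = Real.exp x := by
  unfold pt
  rw [Complex.norm_exp]
  simp

theorem pt_mem {x : ℝ} (hx : x < 0) (θ : ℝ) : pt x θ ∈ Metric.ball (0 : ℂ) 1 := by
  rw [mem_ball_zero_iff, norm_pt]
  exact (by rw [← Real.exp_zero]; exact Real.exp_lt_exp.2 hx)

theorem continuous_pt : Continuous (fun p : ℝ × ℝ => pt p.1 p.2) := by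
  unfold pt
  fun_prop

theorem pt_periodic (x : ℝ) : Function.Periodic (fun θ : ℝ => pt x θ) (2 * Real.pi) := by
  intro θ
  simp only [pt]
  have : (x : ℂ) + ((θ + 2 * Real.pi : ℝ) : ℂ) * Complex.I =
      ((x : ℂ) + (θ : ℂ) * Complex.I) + 2 * Real.pi * Complex.I := by
    push_cast
    ring
  rw [this, Complex.exp_periodic]

theorem int_five (f0 fp fm fa fb : ℝ → ℝ) (h0 : Continuous f0) (hp : Continuous fp)
    (hm : Continuous fm) (ha : Continuous fa) (hb : Continuous fb) (k a b : ℝ) :
    (∫ θ in a..b, (k * f0 θ - fp θ - fm θ - fa θ - fb θ)) =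
      k * (∫ θ in a..b, f0 θ) - (∫ θ in a..b, fp θ) - (∫ θ in a..b, fm θ) -
        (∫ θ in a..b, fa θ) - (∫ θ in a..b, fb θ) := by
  rw [intervalIntegral.integral_sub, intervalIntegral.integral_sub, intervalIntegral.integral_sub,
    intervalIntegral.integral_sub, intervalIntegral.integral_const_mul]
  all_goals
    apply Continuous.intervalIntegrable
    fun_prop

theorem ra5 (ra1 : St_RA1) (ra2 : St_RA2) : St_RA5 := by
  intro u j hP
  obtain ⟨h1, h2, h3⟩ := ra1 u j hP
  have hu := ra2 u j hP
  have hhalf := hP.1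
  have hpi : (0 : ℝ) ≤ 2 * Real.pi := by positivity
  -- the truncated integrand is continuous
  have hcont : ∀ c : ℝ, c < 0 →
      Continuous (fun p : ℝ × ℝ => u (pt (min p.1 c) p.2) - 1 / 2) := by
    intro c hc
    have a : Continuous (fun p : ℝ × ℝ => pt (min p.1 c) p.2) :=
      continuous_pt.comp ((continuous_fst.min continuous_const).prodMk continuous_snd)
    exact (hu.comp_continuous a
      (fun p => pt_mem (lt_of_le_of_lt (min_le_right _ _) hc) _)).sub continuous_const
  have hcx : ∀ x : ℝ, x < 0 → Continuous (fun θ : ℝ => u (pt x θ) - 1 / 2) := by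
    intro x hx
    have a : Continuous (fun θ : ℝ => pt x θ) :=
      continuous_pt.comp (continuous_const.prodMk continuous_id)
    exact (hu.comp_continuous a (fun p => pt_mem hx _)).sub continuous_const
  have hnn : ∀ x : ℝ, x < 0 → ∀ θ : ℝ, 0 ≤ u (pt x θ) - 1 / 2 := by
    intro x hx θ
    have := hhalf _ (pt_mem hx θ)
    linarith
  refine ⟨fun x => ∫ θ in (0 : ℝ)..(2 * Real.pi), (u (pt x θ) - 1 / 2), fun x => rfl, ?_, ?_, ?_,
    ?_, ?_⟩
  · intro x hx
    exact intervalIntegral.integral_nonneg hpi (fun θ _ => hnn x hx θ)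
  · intro x hx
    have hx : x < 0 := hx
    have hc : x / 2 < 0 := by linarith
    have a : Continuous (fun y : ℝ => ∫ θ in (0 : ℝ)..(2 * Real.pi),
        (u (pt (min y (x / 2)) θ) - 1 / 2)) := by
      apply intervalIntegral.continuous_parametric_intervalIntegral_of_continuous'
      exact hcont _ hc
    have b : ContinuousAt (fun y : ℝ => ∫ θ in (0 : ℝ)..(2 * Real.pi),
        (u (pt y θ) - 1 / 2)) x := by
      apply (a.continuousAt (x := x)).congr
      have : ∀ᶠ y in 𝓝 x, y < x / 2 := Iio_mem_nhds (by linarith)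
      filter_upwards [this] with y hy
      rw [min_eq_left hy.le]
    exact b.continuousWithinAt
  · intro x hx
    have hK : IsCompact (Metric.closedBall (0 : ℂ) (Real.exp x)) := isCompact_closedBall _ _
    have hsub : Metric.closedBall (0 : ℂ) (Real.exp x) ⊆ Metric.ball 0 1 :=
      Metric.closedBall_subset_ball ((by rw [← Real.exp_zero]; exact Real.exp_lt_exp.2 hx))
    obtain ⟨B, hB⟩ := (hK.bddAbove_image (hu.mono hsub))
    refine ⟨∫ θ in (0 : ℝ)..(2 * Real.pi), (B - 1 / 2), ?_⟩
    intro x' hx'
    have hx0 : x' < 0 := lt_of_le_of_lt hx' hx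
    apply intervalIntegral.integral_mono_on hpi ((hcx x' hx0).intervalIntegrable _ _)
      (continuous_const.intervalIntegrable _ _)
    intro θ _
    have : u (pt x' θ) ≤ B := by
      apply hB
      refine ⟨pt x' θ, ?_, rfl⟩
      rw [mem_closedBall_zero_iff, norm_pt]
      exact Real.exp_le_exp.2 hx'
    linarith
  · intro x x' hx hx'
    simp only
    rw [← intervalIntegral.integral_const_mul]
    apply intervalIntegral.integral_mono_on hpi ((hcx x' hx').intervalIntegrable _ _)
      (((hcx x hx).const_mul _).intervalIntegrable _ _)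
    intro θ _
    exact h1 x x' θ hx hx'
  · intro x δ hx hδ hδx
    have hxp : x + δ < 0 := by linarith
    have hxm : x - δ < 0 := by linarith
    have hδ2 : 0 < δ ^ 2 := by positivity
    constructor
    · apply intervalIntegral.integral_nonneg hpi
      intro θ _
      unfold Efour
      apply div_nonneg _ hδ2.le
      refine le_trans ?_ (h2 x θ δ hx hδ (by linarith))
      have a := h3 x (x + δ) θ hx hxp
      have b := h3 x (x - δ) θ hx hxm
      linarith
    · set τ : ℝ := δ / (-x) with hτ
      have hτ0 : 0 < τ := div_pos hδ (by linarith)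
      have hτ1 : τ < 1 / 2 := by
        rw [hτ, div_lt_iff₀ (by linarith)]
        linarith
      have hτ4 : τ ^ 4 < 1 / 16 := by
        have : τ ^ 4 < (1 / 2) ^ 4 := pow_lt_pow_left₀ hτ1 hτ0.le (by norm_num)
        norm_num at this
        linarith
      have hτ4' : 0 < τ ^ 4 := by positivity
      set A : ℝ := ∫ θ in (0 : ℝ)..(2 * Real.pi), (u (pt x θ) - 1 / 2) with hA
      have hA0 : 0 ≤ A := intervalIntegral.integral_nonneg hpi (fun θ _ => hnn x hx θ)
      have hper : Function.Periodic (fun θ : ℝ => u (pt x θ) - 1 / 2) (2 * Real.pi) := by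
        intro θ
        simp only
        have := pt_periodic x θ
        simp only at this
        rw [this]
      have p1 : (∫ θ in (0 : ℝ)..(2 * Real.pi), (u (pt x (θ + δ)) - 1 / 2)) = A := by
        rw [intervalIntegral.integral_comp_add_right (fun θ => u (pt x θ) - 1 / 2) δ]
        have := hper.intervalIntegral_add_eq (0 + δ) 0
        rw [zero_add (2 * Real.pi)] at this
        rw [hA, ← this]
        congr 1
        ring
      have p2 : (∫ θ in (0 : ℝ)..(2 * Real.pi), (u (pt x (θ - δ)) - 1 / 2)) = A := by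
        rw [intervalIntegral.integral_comp_sub_right (fun θ => u (pt x θ) - 1 / 2) δ]
        have := hper.intervalIntegral_add_eq (0 - δ) 0
        rw [zero_add (2 * Real.pi)] at this
        rw [hA, ← this]
        congr 1
        ring
      have c0 := hcx x hx
      have cp := hcx _ hxp
      have cm := hcx _ hxm
      have ca : Continuous (fun θ : ℝ => u (pt x (θ + δ)) - 1 / 2) :=
        c0.comp (continuous_id.add continuous_const)
      have cb : Continuous (fun θ : ℝ => u (pt x (θ - δ)) - 1 / 2) :=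
        c0.comp (continuous_id.sub continuous_const)
      have e : (∫ θ in (0 : ℝ)..(2 * Real.pi), Efour u δ x θ) =
          2 * (4 * ((1 + τ ^ 4) / (1 - τ ^ 4)) * A
            - (∫ θ in (0 : ℝ)..(2 * Real.pi), (u (pt (x + δ) θ) - 1 / 2))
            - (∫ θ in (0 : ℝ)..(2 * Real.pi), (u (pt (x - δ) θ) - 1 / 2)) - A - A) / δ ^ 2 := by
        have e1 : (∫ θ in (0 : ℝ)..(2 * Real.pi), (4 * ((1 + τ ^ 4) / (1 - τ ^ 4)) *
            (u (pt x θ) - 1 / 2) - (u (pt (x + δ) θ) - 1 / 2) - (u (pt (x - δ) θ) - 1 / 2)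
            - (u (pt x (θ + δ)) - 1 / 2) - (u (pt x (θ - δ)) - 1 / 2))) =
            4 * ((1 + τ ^ 4) / (1 - τ ^ 4)) * A
            - (∫ θ in (0 : ℝ)..(2 * Real.pi), (u (pt (x + δ) θ) - 1 / 2))
            - (∫ θ in (0 : ℝ)..(2 * Real.pi), (u (pt (x - δ) θ) - 1 / 2)) - A - A := by
          rw [int_five (fun θ => u (pt x θ) - 1 / 2) _ _ _ _ c0 cp cm ca cb, p1, p2]
        rw [← e1, ← intervalIntegral.integral_const_mul, ← intervalIntegral.integral_div]
        rfl
      rw [e]
      apply div_le_div_of_nonneg_right _ hδ2.le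
      apply mul_le_mul_of_nonneg_left _ (by norm_num)
      have hfrac : 4 * ((1 + τ ^ 4) / (1 - τ ^ 4)) * A ≤ (4 + 9 * τ ^ 4) * A := by
        apply mul_le_mul_of_nonneg_right _ hA0
        rw [← mul_div_assoc, div_le_iff₀ (by linarith)]
        nlinarith
      linarith

end Pool.Agent.Helper52.PM
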